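import Mathlib
import Pool.Agent.V7H86.WP.Circ

/-!
# Bounded functions on larger domains which touch the sphere along complex circles

`B` is the unit ball of `ℂⁿ`. For a unit vector `q` and `0 < ε ≤ 1` the ellipsoid
`(1 - ε) |y|² + ε |⟨y, q⟩|² < 1` contains `B`, and its boundary meets the sphere in the circle
`{ζ q : |ζ| = 1}` only. Let `Ω ⊇ B` be a set which near each point `q` of the sphere contains such an
ellipsoid; for instance the polydisc, all polyhedra `|⟨z, p_i⟩| < 1` and all finite intersections of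
the ellipsoids. Let `f_1, …, f_N` be holomorphic on `Ω` and bounded by `1`. If the Bezout equation
for arbitrary bounded holomorphic `G_1, …, G_M` has bounded holomorphic solutions on the part of `B`
where all `|f_l|` are small, then the equation for `f_1, …, f_N, G_1, …, G_M` has bounded
holomorphic solutions on `B`, with uniform bounds.

Proof: first Whitney localisation along one complex geodesic, then at each boundary point `q` of the
ball Whitney localisation along the geodesic through `q`. On the cells of the second localisation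
the functions `f_l` extend holomorphically, with the bound `1`, to balls of a fixed radius, because the
ellipsoid at `q` is invariant under the translations along this geodesic; so they are nearly constant
on smaller balls.
-/

set_option autoImplicit false

open Metric Set

namespace Pool.Agent.Results.MP_ca0fc2_an.CircularContactH86

open Pool.Agent.V7H86.WP

abbrev V (n : ℕ) := EuclideanSpace ℂ (Fin n)

/-- The ellipsoid `(1 - ε) |y|² + ε |⟨y, p⟩|² < 1` (for `ε = 1` the set `|⟨y, p⟩| < 1`). -/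
def ellipsoid {n : ℕ} (p : V n) (ε : ℝ) : Set (V n) :=
  {y | (1 - ε) * ‖y‖ ^ 2 + ε * ‖(inner ℂ p y : ℂ)‖ ^ 2 < 1}

/-- `f` is holomorphic on `Z` and bounded there by `1`. -/
def HolBdd {n : ℕ} (f : V n → ℂ) (Z : Set (V n)) : Prop :=
  DifferentiableOn ℂ f Z ∧ ∀ z ∈ Z, ‖f z‖ ≤ 1

/-- The equation `∑ F_j g_j = 1` on `Z` has solutions `g_j` which are holomorphic on `Z` and
bounded there by `C`. -/
def SolvableOn {n : ℕ} {J : Type} [Fintype J] (F : J → V n → ℂ) (Z : Set (V n)) (C : ℝ) : Prop :=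
  ∃ g : J → V n → ℂ, (∀ j, DifferentiableOn ℂ (g j) Z) ∧
    (∀ j, ∀ z ∈ Z, ‖g j z‖ ≤ C) ∧ ∀ z ∈ Z, ∑ j, F j z * g j z = 1

/-- For all bounded holomorphic `G_1, …, G_M`: solutions for `G`, bounded by `Q`, on the part of the
ball where all `|f_l| < a` imply solutions for `f_1, …, f_N, G_1, …, G_M`, bounded by `C`, on the
ball. -/
def Localises {n N : ℕ} (M : ℕ) (a Q C : ℝ) (f : Fin N → V n → ℂ) : Prop :=
  ∀ G : Fin M → V n → ℂ, (∀ k, HolBdd (G k) (ball 0 1)) →
    SolvableOn G {z | z ∈ ball (0 : V n) 1 ∧ ∀ l, ‖f l z‖ < a} Q →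
    SolvableOn (Sum.elim f G) (ball 0 1) C

/-- The corona theorem for `f_1, …, f_N` and one arbitrary bounded holomorphic function `G`. -/
def CoronaWithOne {n N : ℕ} (δ C : ℝ) (f : Fin N → V n → ℂ) : Prop :=
  ∀ G : V n → ℂ, HolBdd G (ball 0 1) → (∀ z ∈ ball (0 : V n) 1, δ ≤ (∑ l, ‖f l z‖) + ‖G z‖) →
    SolvableOn (Sum.elim f fun _ : Unit => G) (ball 0 1) C

/-- Near each point `q` of the sphere `Ω` contains an ellipsoid at `q`. -/
def CircularContact {n : ℕ} (Ω : Set (V n)) : Prop :=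
  ∀ q : V n, ‖q‖ = 1 → ∃ ε r : ℝ, 0 < ε ∧ 0 < r ∧ ellipsoid q ε ∩ ball q r ⊆ Ω

theorem exists_unit {n : ℕ} (hn : 1 ≤ n) : ∃ p : V n, ‖p‖ = 1 :=
  ⟨EuclideanSpace.single ⟨0, hn⟩ 1, by rw [PiLp.norm_single, norm_one]⟩

/-- functions on domains with contact along circles, uniformly -/
theorem contact_loc (n N M : ℕ) (a Q : ℝ) (hn : 1 ≤ n) (ha : 0 < a) (hQ : 0 < Q)
    (Ω : Set (V n)) (hΩB : ball (0 : V n) 1 ⊆ Ω) (hΩ : CircularContact Ω) :
    ∃ C : ℝ, ∀ f : Fin N → V n → ℂ, (∀ l, HolBdd (f l) Ω) → Localises M a Q C f := by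
  obtain ⟨p₀, hp₀⟩ := exists_unit hn
  let I : Type := {x : (Fin N → V n → ℂ) × (Fin M → V n → ℂ) // (∀ l, HolBdd (x.1 l) Ω) ∧
      (∀ k, HolBdd (x.2 k) (ball 0 1)) ∧
      SolvableOn x.2 {z | z ∈ ball (0 : V n) 1 ∧ ∀ l, ‖x.1 l z‖ < a} Q}
  obtain ⟨C, hC⟩ := contact_global hp₀ hΩB hΩ ha hQ (f := fun i : I => i.1.1)
    (G := fun i : I => i.1.2) (fun i l => (i.2.1 l).1) (fun i l => (i.2.1 l).2)
    (fun i k => i.2.2.1 k) (fun i => i.2.2.2)
  exact ⟨C, fun f hf G hG hs => hC ⟨(f, G), hf, hG, hs⟩⟩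

/-- one arbitrary function -/
theorem one_of_loc {n N : ℕ} {δ C : ℝ} (hδ : 0 < δ) {f : Fin N → V n → ℂ}
    (h : Localises 1 (δ / (2 * (N + 1))) (2 / δ) C f) : CoronaWithOne δ C f := by
  intro G hG hlow
  have hN0 : (0 : ℝ) ≤ N := Nat.cast_nonneg N
  have hne : ∀ z ∈ {z | z ∈ ball (0 : V n) 1 ∧ ∀ l, ‖f l z‖ < δ / (2 * (N + 1))},
      δ / 2 ≤ ‖G z‖ := by
    rintro z ⟨hz, hzl⟩
    have h1 := hlow z hz
    have h2 : ∑ l, ‖f l z‖ ≤ ∑ _l : Fin N, δ / (2 * (N + 1)) :=
      Finset.sum_le_sum fun l _ => (hzl l).le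
    rw [Finset.sum_const, Finset.card_univ, Fintype.card_fin, nsmul_eq_mul] at h2
    have h3 : (N : ℝ) * (δ / (2 * (N + 1))) ≤ δ / 2 := by
      rw [mul_div_assoc', div_le_div_iff₀ (by positivity) (by norm_num)]
      nlinarith
    linarith
  obtain ⟨g, h1, h2, h3⟩ := h (fun _ => G) (fun _ => hG) ⟨fun _ z => (G z)⁻¹,
    fun _ => (hG.1.mono fun z hz => hz.1).inv fun z hz h0 => by
      have h4 := hne z hz
      rw [h0, norm_zero] at h4
      linarith,
    fun _ z hz => by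
      rw [norm_inv, ← one_div, show (2 : ℝ) / δ = 1 / (δ / 2) by field_simp]
      exact one_div_le_one_div_of_le (by positivity) (hne z hz),
    fun z hz => by
      rw [Finset.sum_const, Finset.card_univ, Fintype.card_fin, one_smul]
      refine mul_inv_cancel₀ fun h0 => ?_
      have h4 := hne z hz
      rw [h0, norm_zero] at h4
      linarith⟩
  refine ⟨fun o => g (Sum.map id (fun _ => 0) o), fun o => h1 _, fun o => h2 _, fun z hz => ?_⟩
  have h4 := h3 z hz
  rw [Fintype.sum_sum_type] at h4 ⊢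
  simpa using h4

/-- finite intersections of ellipsoids -/
theorem contact_inter {n k : ℕ} (p : Fin k → V n) (ε : Fin k → ℝ) (hp : ∀ i, ‖p i‖ = 1)
    (hε : ∀ i, 0 < ε i ∧ ε i ≤ 1) :
    ball (0 : V n) 1 ⊆ {z | ∀ i, z ∈ ellipsoid (p i) (ε i)} ∧
      CircularContact {z | ∀ i, z ∈ ellipsoid (p i) (ε i)} := by
  classical
  refine ⟨fun z hz i => ball_EE (hp i) (hε i).1.le hz, fun q hq => ?_⟩
  have h1 : ∀ i, ∃ e r : ℝ, 0 < e ∧ 0 < r ∧
      ellipsoid q e ∩ ball q r ⊆ ellipsoid (p i) (ε i) := by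
    intro i
    have hin : ‖(inner ℂ (p i) q : ℂ)‖ ≤ 1 := by
      have h2 := norm_inner_le_norm (𝕜 := ℂ) (p i) q
      rwa [hp i, hq, one_mul] at h2
    rcases hin.lt_or_eq with h2 | h2
    · have ho : IsOpen (ellipsoid (p i) (ε i)) := by
        refine isOpen_lt ?_ continuous_const
        fun_prop
      have hqm : q ∈ ellipsoid (p i) (ε i) := by
        change (1 - ε i) * ‖q‖ ^ 2 + ε i * ‖(inner ℂ (p i) q : ℂ)‖ ^ 2 < 1
        rw [hq]
        have h3 : ‖(inner ℂ (p i) q : ℂ)‖ ^ 2 < 1 := by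
          nlinarith [norm_nonneg (inner ℂ (p i) q : ℂ)]
        nlinarith [(hε i).1]
      obtain ⟨r, hr, hr2⟩ := Metric.isOpen_iff.1 ho q hqm
      exact ⟨1, r, one_pos, hr, fun z hz => hr2 hz.2⟩
    · refine ⟨ε i, 1, (hε i).1, one_pos, fun z hz => ?_⟩
      have h3 : q = (inner ℂ (p i) q : ℂ) • p i := by
        have h4 : ‖q - (inner ℂ (p i) q : ℂ) • p i‖ ^ 2 = 0 := by
          have h5 := norm_sub_sq (𝕜 := ℂ) q ((inner ℂ (p i) q : ℂ) • p i)
          rw [inner_smul_right, ← inner_conj_symm q (p i), RCLike.mul_conj, norm_smul, hp i, h2,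
            hq] at h5
          rw [h5]
          norm_num
        exact sub_eq_zero.1 (norm_eq_zero.1 ((sq_eq_zero_iff).1 h4))
      have h4 : (1 - ε i) * ‖z‖ ^ 2 + ε i * ‖(inner ℂ q z : ℂ)‖ ^ 2 < 1 := hz.1
      rw [h3, inner_smul_left, norm_mul, RCLike.norm_conj, h2, one_mul] at h4
      exact h4
  choose e r he hr hsub using h1
  have hsub2 : ∀ (s : Finset (Fin k)), ∃ e' r' : ℝ, 0 < e' ∧ 0 < r' ∧
      ∀ i ∈ s, ellipsoid q e' ∩ ball q r' ⊆ ellipsoid (p i) (ε i) := by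
    intro s
    induction s using Finset.induction_on with
    | empty => exact ⟨1, 1, one_pos, one_pos, fun i hi => absurd hi (Finset.notMem_empty i)⟩
    | insert j s hj ih =>
      obtain ⟨e', r', he', hr', h2⟩ := ih
      refine ⟨min (e j) e', min (r j) r', lt_min (he j) he', lt_min (hr j) hr', fun i hi => ?_⟩
      rcases Finset.mem_insert.1 hi with h3 | h3
      · subst h3
        exact fun z hz => hsub i ⟨EE_mono q hq (min_le_left _ _) hz.1,
          ball_subset_ball (min_le_left _ _) hz.2⟩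
      · exact fun z hz => h2 i h3 ⟨EE_mono q hq (min_le_right _ _) hz.1,
          ball_subset_ball (min_le_right _ _) hz.2⟩
  obtain ⟨e', r', he', hr', h2⟩ := hsub2 Finset.univ
  exact ⟨e', r', he', hr', fun z hz i => h2 i (Finset.mem_univ i) hz⟩

theorem result :
    -- (1) localisation for functions on a set with contact along complex circles
    (∀ (n N M : ℕ) (a Q : ℝ), 1 ≤ n → 0 < a → 0 < Q → ∀ Ω : Set (V n),
      ball (0 : V n) 1 ⊆ Ω → CircularContact Ω → ∃ C : ℝ,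
      ∀ f : Fin N → V n → ℂ, (∀ l, HolBdd (f l) Ω) → Localises M a Q C f) ∧
    -- (2) the corona theorem for such functions and one arbitrary function
    (∀ (n N : ℕ) (δ : ℝ), 1 ≤ n → 0 < δ → ∀ Ω : Set (V n),
      ball (0 : V n) 1 ⊆ Ω → CircularContact Ω → ∃ C : ℝ,
      ∀ f : Fin N → V n → ℂ, (∀ l, HolBdd (f l) Ω) → CoronaWithOne δ C f) ∧
    -- (3) finite intersections of ellipsoids, for instance the polydisc, are such sets
    (∀ (n k : ℕ) (p : Fin k → V n) (ε : Fin k → ℝ), (∀ i, ‖p i‖ = 1) →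
      (∀ i, 0 < ε i ∧ ε i ≤ 1) →
      ball (0 : V n) 1 ⊆ {z | ∀ i, z ∈ ellipsoid (p i) (ε i)} ∧
        CircularContact {z | ∀ i, z ∈ ellipsoid (p i) (ε i)}) ∧
    (∀ n : ℕ, ball (0 : V n) 1 ⊆ {z | ∀ i, ‖z i‖ < 1} ∧
      CircularContact {z : V n | ∀ i, ‖z i‖ < 1}) := by
  refine ⟨contact_loc, fun n N δ hn hδ Ω hΩB hΩ => ?_,
    fun n k p ε hp hε => contact_inter p ε hp hε, fun n => ?_⟩
  · obtain ⟨C, hC⟩ := contact_loc n N 1 (δ / (2 * (N + 1))) (2 / δ) hn (by positivity)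
      (by positivity) Ω hΩB hΩ
    exact ⟨C, fun f hf => one_of_loc hδ (hC f hf)⟩
  · have h1 : {z : V n | ∀ i, ‖z i‖ < 1} =
        {z | ∀ i : Fin n, z ∈ ellipsoid (EuclideanSpace.single i (1 : ℂ)) 1} := by
      ext z
      refine forall_congr' fun i => ?_
      change ‖z i‖ < 1 ↔ (1 - 1) * ‖z‖ ^ 2 +
        1 * ‖(inner ℂ (EuclideanSpace.single i (1 : ℂ)) z : ℂ)‖ ^ 2 < 1
      rw [EuclideanSpace.inner_single_left, map_one, one_mul, sub_self, zero_mul, zero_add, one_mul,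
        sq_lt_one_iff₀ (norm_nonneg _)]
    rw [h1]
    exact contact_inter _ _ (fun i => by rw [PiLp.norm_single, norm_one])
      fun i => ⟨one_pos, le_rfl⟩

end Pool.Agent.Results.MP_ca0fc2_an.CircularContactH86
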