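import Mathlib
import Pool.Agent.V7H86.HP.Loc

/-!
The corona problem on the unit ball of `ℂ^n` with infinite products among the data: products over
infinitely many hyperplanes in arbitrary directions with the Carleson condition, and products of
arbitrary bounded holomorphic functions close to `1`.
-/

set_option autoImplicit false

open Metric Set Filter Topology

namespace Pool.Agent.Results.MP_ca0fc2_an.HyperplaneProductsH86

open Pool.Agent.V7H86.HP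

abbrev V (n : ℕ) := EuclideanSpace ℂ (Fin n)

/-- `ψ` is a holomorphic map from the unit ball to the unit disc, and the fibre of `ψ` through any
point `z` is the part in the ball of the affine subspace `z + ker ψ'(z)`. -/
def HasAffineFibres {n : ℕ} (ψ : V n → ℂ) : Prop :=
  DifferentiableOn ℂ ψ (ball 0 1) ∧ (∀ z ∈ ball (0 : V n) 1, ‖ψ z‖ < 1) ∧
    ∀ z ∈ ball (0 : V n) 1, ∀ z' ∈ ball (0 : V n) 1, ψ z' = ψ z ↔ fderiv ℂ ψ z (z' - z) = 0

/-- `h = β ∘ χ` on the ball with `χ` a map with affine fibres to the disc and `β` holomorphic on the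
disc and bounded by `1`. -/
def OneVariable {n : ℕ} (h : V n → ℂ) : Prop :=
  ∃ (χ : V n → ℂ) (β : ℂ → ℂ), HasAffineFibres χ ∧ DifferentiableOn ℂ β (ball 0 1) ∧
    (∀ w ∈ ball (0 : ℂ) 1, ‖β w‖ ≤ 1) ∧ ∀ z ∈ ball (0 : V n) 1, h z = β (χ z)

/-- The equation `∑ F_j g_j = 1` has a solution with `g_j` holomorphic on `Ω` and bounded by `C`. -/
def Solvable {n : ℕ} (Ω : Set (V n)) {J : Type} [Fintype J] (F : J → V n → ℂ) (C : ℝ) : Prop :=
  ∃ g : J → V n → ℂ, (∀ j, DifferentiableOn ℂ (g j) Ω) ∧ (∀ j, ∀ z ∈ Ω, ‖g j z‖ ≤ C) ∧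
    ∀ z ∈ Ω, ∑ j, F j z * g j z = 1

/-- the data `F` together with one more function `φ` -/
def With {n : ℕ} {J : Type} (φ : V n → ℂ) (F : J → V n → ℂ) : Option J → V n → ℂ
  | none => φ
  | some j => F j

/-- `b = ∏ φ_k` on `Ω` (pointwise limit of the partial products), with holomorphic factors
bounded by `1`. -/
structure IsProduct {n : ℕ} (Ω : Set (V n)) (φ : ℕ → V n → ℂ) (b : V n → ℂ) : Prop where
  holomorphic : ∀ k, DifferentiableOn ℂ (φ k) Ω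
  bounded : ∀ k, ∀ z ∈ Ω, ‖φ k z‖ ≤ 1
  converges : ∀ z ∈ Ω, Tendsto (fun m => ∏ k ∈ Finset.range m, φ k z) atTop (𝓝 (b z))

/-- The function `(t - ⟨z, p⟩) / (1 - t ⟨z, p⟩)` with zero set the hyperplane `⟨z, p⟩ = t`; it is
the first component of the involutive automorphism of the ball at the point `t p`. -/
noncomputable def hyp {n : ℕ} (p : V n) (t : ℝ) (z : V n) : ℂ :=
  (t - inner ℂ p z) / (1 - t * inner ℂ p z)

/-- The `φ_k` are the functions of hyperplanes in arbitrary directions `p_k` and with arbitrary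
distances `t_k` from the origin (`t_k = 1` means `φ_k = 1`), with the Carleson condition
`∑ (1 - |φ_k(z)|²) ≤ A` for all `z` in the ball. -/
def Hyperplanes {n : ℕ} (A : ℝ) (φ : ℕ → V n → ℂ) : Prop :=
  ∃ (p : ℕ → V n) (t : ℕ → ℝ), (∀ k, ‖p k‖ = 1 ∧ 0 ≤ t k ∧ t k ≤ 1 ∧ φ k = hyp (p k) (t k)) ∧
    ∀ z ∈ ball (0 : V n) 1, ∀ m, ∑ k ∈ Finset.range m, (1 - ‖φ k z‖ ^ 2) ≤ A

/-- `∑ Re (1 - φ_k(z)) ≤ A` for all `z` in `Ω` -/
def CloseToOne {n : ℕ} (A : ℝ) (Ω : Set (V n)) (φ : ℕ → V n → ℂ) : Prop :=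
  ∀ z ∈ Ω, ∀ m, ∑ k ∈ Finset.range m, (1 - φ k z).re ≤ A

theorem solvable_of_sol {n : ℕ} {Ω : Set (V n)} {J : Type} [Fintype J] {φ : V n → ℂ}
    {F : J → V n → ℂ} {C : ℝ} (h : Sol Ω F φ C) : Solvable Ω (With φ F) C := by
  obtain ⟨g, u, h1, h2, h3, h4, h5⟩ := h
  refine ⟨With u g, fun j => ?_, fun j => ?_, fun z hz => ?_⟩
  · cases j with
    | none => exact h2
    | some j => exact h1 j
  · cases j with
    | none => exact h4
    | some j => exact h3 j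
  · rw [Fintype.sum_option, ← h5 z hz]
    simp only [With]
    ring

theorem sol_of_solvable {n : ℕ} {Ω : Set (V n)} {J : Type} [Fintype J] {φ : V n → ℂ}
    {F : J → V n → ℂ} {C : ℝ} (h : Solvable Ω (With φ F) C) : Sol Ω F φ C := by
  obtain ⟨g, h1, h2, h3⟩ := h
  refine ⟨fun j => g (some j), g none, fun j => h1 _, h1 _, fun j => h2 _, h2 _, fun z hz => ?_⟩
  rw [← h3 z hz, Fintype.sum_option]
  simp only [With]
  ring

theorem isProd_of {n : ℕ} {Ω : Set (V n)} {φ : ℕ → V n → ℂ} {b : V n → ℂ}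
    (h : IsProduct Ω φ b) : IsProd Ω φ b := ⟨h.holomorphic, h.bounded, h.converges⟩

theorem fam_of {n : ℕ} {A : ℝ} {φ : ℕ → V n → ℂ} (h : Hyperplanes A φ) :
    ∃ (p : ℕ → V n) (t : ℕ → ℝ), Fam A p t ∧ ∀ k, φ k = mf (p k) (t k) := by
  obtain ⟨p, t, h1, h2⟩ := h
  have h3 : ∀ k, φ k = mf (p k) (t k) := fun k => (h1 k).2.2.2
  refine ⟨p, t, ⟨fun k => (h1 k).1, fun k => (h1 k).2.1, fun k => (h1 k).2.2.1,
    fun z hz m => ?_⟩, h3⟩
  have h4 := h2 z hz m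
  simp only [h3] at h4
  exact h4

theorem ov_of {n : ℕ} {h : V n → ℂ} (hh : OneVariable h) : OV h := by
  obtain ⟨χ, β, h1, h2, h3, h4⟩ := hh
  exact ⟨χ, β, ⟨h1.1, h1.2.2⟩, h1.2.1, h2, h3, h4⟩

/-- the functions of hyperplanes are functions of one variable -/
theorem ov_mf {n : ℕ} {p : V n} {t : ℝ} (hp : ‖p‖ = 1) (h0 : 0 ≤ t) (h1 : t ≤ 1) :
    OV (mf p t) :=
  ⟨fun z => inner ℂ p z, mo t, inner_AF p,
    fun _ hz => inner_lt hp (mem_ball_zero_iff.1 hz), mo_diff h0 h1,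
    fun _ hw => mo_le h0 h1 (mem_ball_zero_iff.1 hw), fun _ _ => rfl⟩

/-- the localisation theorem -/
theorem local_part (A : ℝ) (L N K M : ℕ) (ε Q : ℝ) (hε : 0 < ε) :
    ∃ C : ℝ, ∀ (n : ℕ) (φ : Fin L → ℕ → V n → ℂ) (b : Fin L → V n → ℂ)
      (ψ : Fin K → V n → ℂ) (f : Fin K → Fin N → ℂ → ℂ) (G : Fin M → V n → ℂ),
      (∀ l, IsProduct (ball 0 1) (φ l) (b l) ∧ (Hyperplanes A (φ l) ∨
        (CloseToOne A (ball 0 1) (φ l) ∧ ∀ k, OneVariable (φ l k)))) →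
      (∀ k, HasAffineFibres (ψ k)) →
      (∀ k i, DifferentiableOn ℂ (f k i) (ball 0 1) ∧ ∀ w ∈ ball (0 : ℂ) 1, ‖f k i w‖ ≤ 1) →
      (∀ m, DifferentiableOn ℂ (G m) (ball 0 1) ∧ ∀ z ∈ ball (0 : V n) 1, ‖G m z‖ ≤ 1) →
      Solvable {z | z ∈ ball (0 : V n) 1 ∧ (∀ l, ‖b l z‖ < ε) ∧ ∀ k i, ‖f k i (ψ k z)‖ < ε} G Q →
      Solvable (ball 0 1)
        (Sum.elim b (Sum.elim (fun (q : Fin K × Fin N) z => f q.1 q.2 (ψ q.1 z)) G)) C := by
  obtain ⟨C, -, H⟩ := main A L N K M (ε := ε) (Q := max Q 0) hε (le_max_right _ _)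
  refine ⟨C, ?_⟩
  intro n φ b ψ f G hφ hψ hf hG hs
  refine H (V n) φ b (fun l => ?_) ψ f (fun k => ⟨(hψ k).1, (hψ k).2.2⟩) (fun k => (hψ k).2.1)
    (fun k i => (hf k i).1) (fun k i => (hf k i).2) G (fun m => (hG m).1) (fun m => (hG m).2) ?_
  · obtain ⟨h1, h2⟩ := hφ l
    rcases h2 with h2 | h2
    · obtain ⟨p, t, h3, h4⟩ := fam_of h2
      refine ⟨isProd_of h1, fun k => ?_, Or.inl ⟨p, t, h3, h4⟩⟩
      rw [h4 k]
      exact ov_mf (h3.unit k) (h3.nonneg k) (h3.le k)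
    · exact ⟨isProd_of h1, fun k => ov_of (h2.2 k), Or.inr h2.1⟩
  · obtain ⟨g, h1, h2, h3⟩ := hs
    have hsub : {z : V n | ‖z‖ < 1 ∧ (∀ l, ‖b l z‖ < ε) ∧ ∀ k i, ‖f k i (ψ k z)‖ < ε} ⊆
        {z | z ∈ ball (0 : V n) 1 ∧ (∀ l, ‖b l z‖ < ε) ∧ ∀ k i, ‖f k i (ψ k z)‖ < ε} :=
      fun z hz => ⟨mem_ball_zero_iff.2 hz.1, hz.2⟩
    exact ⟨g, fun j => (h1 j).mono hsub,
      fun j z hz => (h2 j z (hsub hz)).trans (le_max_left _ _), fun z hz => h3 z (hsub hz)⟩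

/-- the corona theorem with one arbitrary generator -/
theorem corona_part (A : ℝ) (L N K : ℕ) (δ : ℝ) (hδ : 0 < δ) :
    ∃ C : ℝ, ∀ (n : ℕ) (φ : Fin L → ℕ → V n → ℂ) (b : Fin L → V n → ℂ)
      (ψ : Fin K → V n → ℂ) (f : Fin K → Fin N → ℂ → ℂ) (G : V n → ℂ),
      (∀ l, IsProduct (ball 0 1) (φ l) (b l) ∧ (Hyperplanes A (φ l) ∨
        (CloseToOne A (ball 0 1) (φ l) ∧ ∀ k, OneVariable (φ l k)))) →
      (∀ k, HasAffineFibres (ψ k)) →
      (∀ k i, DifferentiableOn ℂ (f k i) (ball 0 1) ∧ ∀ w ∈ ball (0 : ℂ) 1, ‖f k i w‖ ≤ 1) →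
      (DifferentiableOn ℂ G (ball 0 1) ∧ ∀ z ∈ ball (0 : V n) 1, ‖G z‖ ≤ 1) →
      (∀ z ∈ ball (0 : V n) 1, δ ≤ ∑ l, ‖b l z‖ + ∑ k, ∑ i, ‖f k i (ψ k z)‖ + ‖G z‖) →
      Solvable (ball 0 1) (Sum.elim b
        (Sum.elim (fun (q : Fin K × Fin N) z => f q.1 q.2 (ψ q.1 z)) (fun _ : Fin 1 => G))) C := by
  have hP : (0 : ℝ) < L + K * N + 1 := by positivity
  obtain ⟨C, H⟩ := local_part A L N K 1 (δ / (2 * (L + K * N + 1))) (2 / δ) (by positivity)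
  refine ⟨C, ?_⟩
  intro n φ b ψ f G hφ hψ hf hG hlow
  refine H n φ b ψ f (fun _ => G) hφ hψ hf (fun _ => hG) ?_
  have hGlow : ∀ z : V n, (z ∈ ball (0 : V n) 1 ∧ (∀ l, ‖b l z‖ < δ / (2 * (L + K * N + 1))) ∧
      ∀ k i, ‖f k i (ψ k z)‖ < δ / (2 * (L + K * N + 1))) → δ / 2 ≤ ‖G z‖ := by
    rintro z ⟨hz, h1, h2⟩
    have h3 : ∑ l, ‖b l z‖ ≤ L * (δ / (2 * (L + K * N + 1))) := by
      refine (Finset.sum_le_sum fun l _ => (h1 l).le).trans (le_of_eq ?_)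
      rw [Finset.sum_const, Finset.card_univ, Fintype.card_fin, nsmul_eq_mul]
    have h4 : ∑ k, ∑ i, ‖f k i (ψ k z)‖ ≤ K * (N * (δ / (2 * (L + K * N + 1)))) := by
      refine (Finset.sum_le_sum fun k _ => Finset.sum_le_sum fun i _ => (h2 k i).le).trans
        (le_of_eq ?_)
      rw [Finset.sum_const, Finset.sum_const, Finset.card_univ, Finset.card_univ,
        Fintype.card_fin, Fintype.card_fin, nsmul_eq_mul, nsmul_eq_mul]
    have h5 := hlow z hz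
    have h6 : L * (δ / (2 * (L + K * N + 1))) + K * (N * (δ / (2 * (L + K * N + 1)))) ≤ δ / 2 := by
      have h7 : L * (δ / (2 * (L + K * N + 1))) + K * (N * (δ / (2 * (L + K * N + 1)))) =
          δ / 2 * ((L + K * N) / (L + K * N + 1)) := by
        field_simp
      rw [h7]
      have h8 : ((L : ℝ) + K * N) / (L + K * N + 1) ≤ 1 := by
        rw [div_le_one hP]
        linarith
      have h9 : 0 < δ / 2 := by positivity
      nlinarith
    linarith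
  have hG0 : ∀ z : V n, (z ∈ ball (0 : V n) 1 ∧ (∀ l, ‖b l z‖ < δ / (2 * (L + K * N + 1))) ∧
      ∀ k i, ‖f k i (ψ k z)‖ < δ / (2 * (L + K * N + 1))) → G z ≠ 0 := by
    intro z hz h0
    have h1 := hGlow z hz
    rw [h0, norm_zero] at h1
    linarith
  refine ⟨fun _ z => (G z)⁻¹, fun _ => ?_, fun _ z hz => ?_, fun z hz => ?_⟩
  · exact DifferentiableOn.fun_inv (hG.1.mono fun z hz => hz.1) fun z hz => hG0 z hz
  · rw [norm_inv]
    have h1 := hGlow z hz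
    have h2 : (2 / δ) = (δ / 2)⁻¹ := by rw [inv_div]
    rw [h2]
    exact inv_anti₀ (by positivity) h1
  · rw [Fin.sum_univ_one]
    exact mul_inv_cancel₀ (hG0 z hz)

/-- **Gluing, localisation and corona theorem with infinite products.** All constants are
independent of the dimension. -/
theorem result :
    -- (1) gluing over hyperplanes in the ball, with converse
    (∀ A C : ℝ, ∃ C' : ℝ, ∀ (n : ℕ) (φ : ℕ → V n → ℂ), Hyperplanes A φ →
      ∃ b : V n → ℂ, IsProduct (ball 0 1) φ b ∧ ∀ (J : Type) [Fintype J] (F : J → V n → ℂ),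
        ((∀ k, Solvable (ball 0 1) (With (φ k) F) C) → Solvable (ball 0 1) (With b F) C') ∧
        (Solvable (ball 0 1) (With b F) C → ∀ k, Solvable (ball 0 1) (With (φ k) F) C)) ∧
    -- (2) gluing over arbitrary functions close to `1` on arbitrary open sets, with converse
    (∀ A C : ℝ, ∃ C' : ℝ, ∀ (n : ℕ) (Ω : Set (V n)), IsOpen Ω →
      ∀ (φ : ℕ → V n → ℂ) (b : V n → ℂ), IsProduct Ω φ b → CloseToOne A Ω φ →
      ∀ (J : Type) [Fintype J] (F : J → V n → ℂ),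
        ((∀ k, Solvable Ω (With (φ k) F) C) → Solvable Ω (With b F) C') ∧
        (Solvable Ω (With b F) C → ∀ k, Solvable Ω (With (φ k) F) C)) ∧
    -- (3) localisation
    (∀ (A : ℝ) (L N K M : ℕ) (ε Q : ℝ), 0 < ε →
      ∃ C : ℝ, ∀ (n : ℕ) (φ : Fin L → ℕ → V n → ℂ) (b : Fin L → V n → ℂ)
      (ψ : Fin K → V n → ℂ) (f : Fin K → Fin N → ℂ → ℂ) (G : Fin M → V n → ℂ),
      (∀ l, IsProduct (ball 0 1) (φ l) (b l) ∧ (Hyperplanes A (φ l) ∨
        (CloseToOne A (ball 0 1) (φ l) ∧ ∀ k, OneVariable (φ l k)))) →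
      (∀ k, HasAffineFibres (ψ k)) →
      (∀ k i, DifferentiableOn ℂ (f k i) (ball 0 1) ∧ ∀ w ∈ ball (0 : ℂ) 1, ‖f k i w‖ ≤ 1) →
      (∀ m, DifferentiableOn ℂ (G m) (ball 0 1) ∧ ∀ z ∈ ball (0 : V n) 1, ‖G m z‖ ≤ 1) →
      Solvable {z | z ∈ ball (0 : V n) 1 ∧ (∀ l, ‖b l z‖ < ε) ∧ ∀ k i, ‖f k i (ψ k z)‖ < ε} G Q →
      Solvable (ball 0 1)
        (Sum.elim b (Sum.elim (fun (q : Fin K × Fin N) z => f q.1 q.2 (ψ q.1 z)) G)) C) ∧
    -- (4) corona theorem with one arbitrary generator `G`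
    (∀ (A : ℝ) (L N K : ℕ) (δ : ℝ), 0 < δ →
      ∃ C : ℝ, ∀ (n : ℕ) (φ : Fin L → ℕ → V n → ℂ) (b : Fin L → V n → ℂ)
      (ψ : Fin K → V n → ℂ) (f : Fin K → Fin N → ℂ → ℂ) (G : V n → ℂ),
      (∀ l, IsProduct (ball 0 1) (φ l) (b l) ∧ (Hyperplanes A (φ l) ∨
        (CloseToOne A (ball 0 1) (φ l) ∧ ∀ k, OneVariable (φ l k)))) →
      (∀ k, HasAffineFibres (ψ k)) →
      (∀ k i, DifferentiableOn ℂ (f k i) (ball 0 1) ∧ ∀ w ∈ ball (0 : ℂ) 1, ‖f k i w‖ ≤ 1) →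
      (DifferentiableOn ℂ G (ball 0 1) ∧ ∀ z ∈ ball (0 : V n) 1, ‖G z‖ ≤ 1) →
      (∀ z ∈ ball (0 : V n) 1, δ ≤ ∑ l, ‖b l z‖ + ∑ k, ∑ i, ‖f k i (ψ k z)‖ + ‖G z‖) →
      Solvable (ball 0 1) (Sum.elim b
        (Sum.elim (fun (q : Fin K × Fin N) z => f q.1 q.2 (ψ q.1 z))
          (fun _ : Fin 1 => G))) C) := by
  refine ⟨fun A C => ?_, fun A C => ?_, fun A L N K M ε Q hε => local_part A L N K M ε Q hε,
    fun A L N K δ hδ => corona_part A L N K δ hδ⟩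
  · obtain ⟨C', -, H⟩ := glueA A (max C 0) (le_max_right _ _)
    refine ⟨C', ?_⟩
    intro n φ hφ
    obtain ⟨p, t, hf, he⟩ := fam_of hφ
    have he2 : φ = fun k => mf (p k) (t k) := funext he
    subst he2
    refine ⟨fun z => ∏' k, mf (p k) (t k) z,
      ⟨hf.isProd.diff, hf.isProd.le, hf.isProd.lim⟩, ?_⟩
    intro J _ F
    refine ⟨fun h => ?_, fun h k => ?_⟩
    · exact solvable_of_sol (H (V n) p t hf _ hf.isProd J F fun k =>
        (sol_of_solvable (h k)).mono (le_max_left _ _))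
    · exact solvable_of_sol ((sol_of_solvable h).factor isOpen_ball hf.isProd k)
  · obtain ⟨C', -, H⟩ := glueB A (max C 0) (le_max_right _ _)
    refine ⟨C', ?_⟩
    intro n Ω hΩ φ b hb hφ J _ F
    refine ⟨fun h => ?_, fun h k => ?_⟩
    · exact solvable_of_sol (H (V n) Ω hΩ φ b (isProd_of hb) hφ J F fun k =>
        (sol_of_solvable (h k)).mono (le_max_left _ _))
    · exact solvable_of_sol ((sol_of_solvable h).factor hΩ (isProd_of hb) k)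

end Pool.Agent.Results.MP_ca0fc2_an.HyperplaneProductsH86
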