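import Mathlib
import Pool.Agent.V7H86.HP.Line

/-!
Arbitrary corona data on the unit ball of `ℂ^n`: one bounded solution on infinitely many complex
lines, and on infinitely many slices of the ball which are images of holomorphic retractions.
-/

set_option autoImplicit false

open Metric Set Filter Topology

namespace Pool.Agent.Results.MP_ca0fc2_an.InfinitelyManyLinesH86

open Pool.Agent.V7H86.HP

abbrev V (n : ℕ) := EuclideanSpace ℂ (Fin n)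

/-- The function `(t - ⟨z, p⟩) / (1 - t ⟨z, p⟩)` with zero set the hyperplane `⟨z, p⟩ = t`; it is
the first component of the involutive automorphism of the ball at the point `t p`. -/
noncomputable def hyp {n : ℕ} (p : V n) (t : ℝ) (z : V n) : ℂ :=
  (t - inner ℂ p z) / (1 - t * inner ℂ p z)

/-- Unit vectors `p_k` and numbers `0 ≤ t_k ≤ 1` with the Carleson condition
`∑ (1 - |φ_k(z)|²) ≤ A` for all `z` in the ball, where `φ_k = hyp p_k t_k`. Indices with `t_k = 1`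
contribute nothing to any sum or set below. -/
structure Carleson {n : ℕ} (A : ℝ) (p : ℕ → V n) (t : ℕ → ℝ) : Prop where
  unit : ∀ k, ‖p k‖ = 1
  range : ∀ k, 0 ≤ t k ∧ t k ≤ 1
  sum_le : ∀ z ∈ ball (0 : V n) 1, ∀ m,
    ∑ k ∈ Finset.range m, (1 - ‖hyp (p k) (t k) z‖ ^ 2) ≤ A

/-- `F_1, …, F_N` are holomorphic on the ball and bounded there by `1`. -/
def Data {n N : ℕ} (F : Fin N → V n → ℂ) : Prop :=
  ∀ j, DifferentiableOn ℂ (F j) (ball 0 1) ∧ ∀ z ∈ ball (0 : V n) 1, ‖F j z‖ ≤ 1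

/-- There are `g_j` holomorphic on the whole ball and bounded there by `C` such that
`∑ F_j g_j = 1` at all points of `Z`. -/
def SolvableOn {n N : ℕ} (F : Fin N → V n → ℂ) (Z : Set (V n)) (C : ℝ) : Prop :=
  ∃ g : Fin N → V n → ℂ, (∀ j, DifferentiableOn ℂ (g j) (ball 0 1)) ∧
    (∀ j, ∀ z ∈ ball (0 : V n) 1, ‖g j z‖ ≤ C) ∧ ∀ z ∈ Z, ∑ j, F j z * g j z = 1

/-- The slice of the ball by the complex line `t p + ℂ q`. -/
def line {n : ℕ} (p q : V n) (t : ℝ) : Set (V n) :=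
  {z | z ∈ ball (0 : V n) 1 ∧ ∃ w : ℂ, z = (t : ℂ) • p + w • q}

theorem fam_of {n : ℕ} {A : ℝ} {p : ℕ → V n} {t : ℕ → ℝ} (h : Carleson A p t) : Fam A p t :=
  ⟨h.unit, fun k => (h.range k).1, fun k => (h.range k).2, h.sum_le⟩

theorem exists_perp {n : ℕ} (hn : 2 ≤ n) {q : V n} (hq : ‖q‖ = 1) :
    ∃ p : V n, ‖p‖ = 1 ∧ (inner ℂ p q : ℂ) = 0 := by
  have hq0 : q ≠ 0 := by
    intro h
    rw [h, norm_zero] at hq
    exact zero_ne_one hq
  have h1 : (Submodule.span ℂ {q})ᗮ ≠ ⊥ := by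
    intro h
    rw [Submodule.orthogonal_eq_bot_iff] at h
    have h2 := finrank_span_singleton (K := ℂ) hq0
    rw [h, finrank_top, finrank_euclideanSpace, Fintype.card_fin] at h2
    omega
  obtain ⟨x, hx, hx0⟩ := Submodule.exists_mem_ne_zero_of_ne_bot h1
  have hxq : (inner ℂ x q : ℂ) = 0 := by
    have h3 := (Submodule.mem_orthogonal_singleton_iff_inner_left).1 hx
    exact h3
  have hn0 : ‖x‖ ≠ 0 := norm_ne_zero_iff.2 hx0
  refine ⟨((‖x‖⁻¹ : ℝ) : ℂ) • x, ?_, ?_⟩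
  · rw [norm_smul, Complex.norm_real, norm_inv, norm_norm, inv_mul_cancel₀ hn0]
  · rw [inner_smul_left, hxq, mul_zero]

/-- every slice of the ball by a complex line is one of the sets `line p q t` -/
theorem line_general {n : ℕ} (hn : 2 ≤ n) {a v : V n} (ha : a ∈ ball (0 : V n) 1) (hv : v ≠ 0) :
    ∃ (p q : V n) (t : ℝ), ‖p‖ = 1 ∧ ‖q‖ = 1 ∧ (inner ℂ p q : ℂ) = 0 ∧ 0 ≤ t ∧ t < 1 ∧
      line p q t = {z | z ∈ ball (0 : V n) 1 ∧ ∃ w : ℂ, z = a + w • v} := by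
  have hv0 : ‖v‖ ≠ 0 := norm_ne_zero_iff.2 hv
  obtain ⟨q, hq⟩ : ∃ q : V n, q = ((‖v‖⁻¹ : ℝ) : ℂ) • v := ⟨_, rfl⟩
  have hq1 : ‖q‖ = 1 := by
    rw [hq, norm_smul, Complex.norm_real, norm_inv, norm_norm, inv_mul_cancel₀ hv0]
  have hvq : v = (‖v‖ : ℂ) • q := by
    rw [hq, smul_smul, ← Complex.ofReal_mul, mul_inv_cancel₀ hv0, Complex.ofReal_one, one_smul]
  obtain ⟨b, hb⟩ : ∃ b : V n, b = a - (inner ℂ q a : ℂ) • q := ⟨_, rfl⟩
  have hbq : (inner ℂ q b : ℂ) = 0 := by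
    rw [hb, inner_sub_right, inner_smul_right, inner_self_eq_norm_sq_to_K, hq1]
    simp
  have hbq' : (inner ℂ b q : ℂ) = 0 := by rw [← inner_conj_symm, hbq, map_zero]
  have hbn : ‖b‖ < 1 := by
    have h1 : a = b + (inner ℂ q a : ℂ) • q := by rw [hb, sub_add_cancel]
    have h2 := norm_add_sq (𝕜 := ℂ) b ((inner ℂ q a : ℂ) • q)
    rw [← h1, inner_smul_right, hbq'] at h2
    have h3 := mem_ball_zero_iff.1 ha
    simp only [mul_zero, map_zero, add_zero] at h2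
    nlinarith [norm_nonneg a, norm_nonneg b, sq_nonneg ‖(inner ℂ q a : ℂ) • q‖]
  have key : ∀ (p : V n), (‖b‖ : ℂ) • p = b →
      line p q ‖b‖ = {z | z ∈ ball (0 : V n) 1 ∧ ∃ w : ℂ, z = a + w • v} := by
    intro p hp
    ext z
    simp only [line, mem_ofPred_eq]
    refine and_congr_right fun _ => ⟨?_, ?_⟩
    · rintro ⟨w, hw⟩
      refine ⟨(w - inner ℂ q a) * (‖v‖ : ℂ)⁻¹, ?_⟩
      have hv1 : (‖v‖ : ℂ) ≠ 0 := by exact_mod_cast hv0
      have h4 : ((w - inner ℂ q a) * (‖v‖ : ℂ)⁻¹) • v = (w - inner ℂ q a) • q := by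
        conv_lhs => rw [hvq]
        rw [smul_smul]
        congr 1
        rw [← hvq]
        field_simp
      rw [h4, hw, hp, hb, sub_smul]
      abel
    · rintro ⟨w, hw⟩
      refine ⟨w * (‖v‖ : ℂ) + inner ℂ q a, ?_⟩
      rw [hw, hp, hb, add_smul, mul_smul, ← hvq]
      abel
  by_cases h0 : b = 0
  · obtain ⟨p, hp1, hp2⟩ := exists_perp hn hq1
    refine ⟨p, q, ‖b‖, hp1, hq1, hp2, norm_nonneg _, hbn, key p ?_⟩
    rw [h0]
    simp
  · have hb0 : ‖b‖ ≠ 0 := norm_ne_zero_iff.2 h0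
    refine ⟨((‖b‖⁻¹ : ℝ) : ℂ) • b, q, ‖b‖, ?_, hq1, ?_, norm_nonneg _, hbn, key _ ?_⟩
    · rw [norm_smul, Complex.norm_real, norm_inv, norm_norm, inv_mul_cancel₀ hb0]
    · rw [inner_smul_left, hbq', mul_zero]
    · rw [smul_smul, ← Complex.ofReal_mul, mul_inv_cancel₀ hb0, Complex.ofReal_one, one_smul]

theorem result :
    -- (1) slices which are images of holomorphic retractions
    (∀ (A C : ℝ) (N : ℕ), ∃ C' : ℝ, ∀ (n : ℕ) (p : ℕ → V n) (t : ℕ → ℝ), Carleson A p t →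
      ∀ ρ : ℕ → V n → V n,
      (∀ k, t k < 1 → DifferentiableOn ℂ (ρ k) (ball 0 1) ∧ MapsTo (ρ k) (ball 0 1) (ball 0 1) ∧
        ∀ z ∈ ball (0 : V n) 1, ‖hyp (p k) (t k) (ρ k z)‖ < 1 / 7) →
      ∀ F : Fin N → V n → ℂ, Data F →
      (∀ k, t k < 1 → SolvableOn F {z | z ∈ ball (0 : V n) 1 ∧ ρ k z = z} C) →
      SolvableOn F {z | z ∈ ball (0 : V n) 1 ∧ ∃ k, t k < 1 ∧ ρ k z = z} C') ∧
    -- (2) complex lines
    (∀ (A : ℝ) (N : ℕ) (δ : ℝ), 0 < δ → ∃ C : ℝ,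
      ∀ (n : ℕ) (p q : ℕ → V n) (t : ℕ → ℝ), Carleson A p t →
      (∀ k, ‖q k‖ = 1 ∧ (inner ℂ (p k) (q k) : ℂ) = 0) →
      ∀ F : Fin N → V n → ℂ, Data F →
      (∀ z ∈ ⋃ k, line (p k) (q k) (t k), δ ≤ ∑ j, ‖F j z‖) →
      SolvableOn F (⋃ k, line (p k) (q k) (t k)) C) ∧
    -- every slice by a complex line occurs in (2)
    (∀ n : ℕ, 2 ≤ n → ∀ a ∈ ball (0 : V n) 1, ∀ v : V n, v ≠ 0 →
      ∃ (p q : V n) (t : ℝ), ‖p‖ = 1 ∧ ‖q‖ = 1 ∧ (inner ℂ p q : ℂ) = 0 ∧ 0 ≤ t ∧ t < 1 ∧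
        line p q t = {z | z ∈ ball (0 : V n) 1 ∧ ∃ w : ℂ, z = a + w • v}) := by
  refine ⟨fun A C N => ?_, fun A N δ hδ => ?_, fun n hn a ha v hv => line_general hn ha hv⟩
  · obtain ⟨C', -, H⟩ := van_inf A (max C 0) N (le_max_right _ _)
    refine ⟨C', ?_⟩
    intro n p t hc ρ hρ F hF hs
    refine H (V n) p t (fam_of hc) ρ (fun k hk => ⟨(hρ k hk).1, (hρ k hk).2.1, (hρ k hk).2.2⟩)
      (Fin N) F (Fintype.card_fin N) (fun j => (hF j).1) (fun j => (hF j).2) (fun k hk => ?_)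
    obtain ⟨g, h1, h2, h3⟩ := hs k hk
    exact ⟨g, h1, fun j z hz => (h2 j z hz).trans (le_max_left _ _), h3⟩
  · obtain ⟨C, -, H⟩ := lines_main A N hδ
    refine ⟨C, ?_⟩
    intro n p q t hc hq F hF hlow
    have he : {z : V n | z ∈ ball (0 : V n) 1 ∧ ∃ k, ∃ w : ℂ, z = (t k : ℂ) • p k + w • q k} =
        ⋃ k, line (p k) (q k) (t k) := by
      ext z
      simp only [line, mem_iUnion, mem_ofPred_eq]
      constructor
      · rintro ⟨h1, k, h2⟩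
        exact ⟨k, h1, h2⟩
      · rintro ⟨k, h1, h2⟩
        exact ⟨h1, k, h2⟩
    have h := H (V n) p q t (fam_of hc) (fun k => (hq k).1) (fun k => (hq k).2) F
      (fun j => (hF j).1) (fun j => (hF j).2) (fun z hz hk => hlow z (by
        rw [← he]
        exact ⟨hz, hk⟩))
    rw [he] at h
    exact h

end Pool.Agent.Results.MP_ca0fc2_an.InfinitelyManyLinesH86
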