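import Mathlib
import Pool.Agent.V7H86.WP.Main

/-!
# Bounded functions of several automorphisms of the ball: localisation and a corona theorem

`B` is the unit ball of `ℂⁿ`. For a unit vector `p` and `0 < ε ≤ 1` the ellipsoid
`(1 - ε) |y|² + ε |⟨y, p⟩|² < 1` contains `B`, and its boundary meets the sphere in the circle
`{ζ p : |ζ| = 1}` only.

Let `f_l(z) = H_l(ψ_1(z), …, ψ_m(z))` with arbitrary automorphisms `ψ_j` of `B` and functions
`H_l` which are holomorphic and bounded on a product of such ellipsoids. If the Bezout equation for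
arbitrary bounded holomorphic `G_1, …, G_M` has bounded holomorphic solutions on the part of `B` where
all `|f_l|` are small, then the equation for `f_1, …, f_N, G_1, …, G_M` has bounded holomorphic
solutions on `B`. All bounds are uniform.

Proof: induction on `m`. By the Whitney localisation along a complex geodesic it is enough to
solve the equation near each boundary point, with bounds which are uniform for families. One of the
automorphisms is normalised to a translation along a geodesic orthogonal to `p`; on the cells at a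
boundary point the functions `H_l` become nearly constant in the first variable, after at most two
more localisations, because there the images of the cells are small compared with the distance
to the boundary of the ellipsoid. Then the first variable is frozen and the induction hypothesis is
applied to the new family; a perturbation lemma gives the result.
-/

set_option autoImplicit false

open Metric Set

namespace Pool.Agent.Results.MP_ca0fc2_an.SeveralAutomorphismsH86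

open Pool.Agent.V7H86.WP

abbrev V (n : ℕ) := EuclideanSpace ℂ (Fin n)

/-- `ψ` is a holomorphic automorphism of the unit ball. -/
def IsAut {n : ℕ} (ψ : V n → V n) : Prop :=
  ∃ φ : V n → V n, DifferentiableOn ℂ ψ (ball 0 1) ∧ DifferentiableOn ℂ φ (ball 0 1) ∧
    MapsTo ψ (ball 0 1) (ball 0 1) ∧ MapsTo φ (ball 0 1) (ball 0 1) ∧
    (∀ z ∈ ball (0 : V n) 1, φ (ψ z) = z) ∧ ∀ z ∈ ball (0 : V n) 1, ψ (φ z) = z

/-- The ellipsoid `(1 - ε) |y|² + ε |⟨y, p⟩|² < 1` (for `ε = 1` the set `|⟨y, p⟩| < 1`). -/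
def ellipsoid {n : ℕ} (p : V n) (ε : ℝ) : Set (V n) :=
  {y | (1 - ε) * ‖y‖ ^ 2 + ε * ‖(inner ℂ p y : ℂ)‖ ^ 2 < 1}

/-- `f` is holomorphic on `Z` and bounded there by `1`. -/
def HolBdd {E : Type} [NormedAddCommGroup E] [NormedSpace ℂ E] (f : E → ℂ) (Z : Set E) : Prop :=
  DifferentiableOn ℂ f Z ∧ ∀ z ∈ Z, ‖f z‖ ≤ 1

/-- The equation `∑ F_j g_j = 1` on `Z` has solutions `g_j` which are holomorphic on `Z` and
bounded there by `C`. -/
def SolvableOn {n : ℕ} {J : Type} [Fintype J] (F : J → V n → ℂ) (Z : Set (V n)) (C : ℝ) : Prop :=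
  ∃ g : J → V n → ℂ, (∀ j, DifferentiableOn ℂ (g j) Z) ∧
    (∀ j, ∀ z ∈ Z, ‖g j z‖ ≤ C) ∧ ∀ z ∈ Z, ∑ j, F j z * g j z = 1

/-- For all bounded holomorphic `G_1, …, G_M`: solutions for `G`, bounded by `Q`, on the part of the
ball where all `|f_l| < a` imply solutions for `f_1, …, f_N, G_1, …, G_M`, bounded by `C`, on the
ball. -/
def Localises {n N : ℕ} (M : ℕ) (a Q C : ℝ) (f : Fin N → V n → ℂ) : Prop :=
  ∀ G : Fin M → V n → ℂ, (∀ k, HolBdd (G k) (ball 0 1)) →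
    SolvableOn G {z | z ∈ ball (0 : V n) 1 ∧ ∀ l, ‖f l z‖ < a} Q →
    SolvableOn (Sum.elim f G) (ball 0 1) C

/-- The corona theorem for `f_1, …, f_N` and one arbitrary bounded holomorphic function `G`. -/
def CoronaWithOne {n N : ℕ} (δ C : ℝ) (f : Fin N → V n → ℂ) : Prop :=
  ∀ G : V n → ℂ, HolBdd G (ball 0 1) → (∀ z ∈ ball (0 : V n) 1, δ ≤ (∑ l, ‖f l z‖) + ‖G z‖) →
    SolvableOn (Sum.elim f fun _ : Unit => G) (ball 0 1) C

theorem exists_unit {n : ℕ} (hn : 1 ≤ n) : ∃ p : V n, ‖p‖ = 1 :=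
  ⟨EuclideanSpace.single ⟨0, hn⟩ 1, by rw [PiLp.norm_single, norm_one]⟩

/-- functions of automorphisms, uniformly -/
theorem aut_loc (n m N M : ℕ) (ε a Q : ℝ) (hn : 1 ≤ n) (hε : 0 < ε) (hε1 : ε ≤ 1) (ha : 0 < a)
    (hQ : 0 < Q) : ∃ C : ℝ, ∀ p : Fin m → V n, (∀ j, ‖p j‖ = 1) →
      ∀ ψ : Fin m → V n → V n, (∀ j, IsAut (ψ j)) →
      ∀ H : Fin N → (Fin m → V n) → ℂ, (∀ l, HolBdd (H l) {w | ∀ j, w j ∈ ellipsoid (p j) ε}) →
      Localises M a Q C fun l z => H l fun j => ψ j z := by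
  obtain ⟨p₀, hp₀⟩ := exists_unit hn
  let I : Type := {x : (Fin m → V n) × (Fin m → V n → V n) × (Fin N → (Fin m → V n) → ℂ) ×
      (Fin M → V n → ℂ) // (∀ j, ‖x.1 j‖ = 1) ∧ (∀ j, IsAut (x.2.1 j)) ∧
      (∀ l, HolBdd (x.2.2.1 l) {w | ∀ j, w j ∈ ellipsoid (x.1 j) ε}) ∧
      (∀ k, HolBdd (x.2.2.2 k) (ball 0 1)) ∧
      SolvableOn x.2.2.2 {z | z ∈ ball (0 : V n) 1 ∧
        ∀ l, ‖x.2.2.1 l fun j => x.2.1 j z‖ < a} Q}
  have hrot : ∀ (i : I) (j : Fin m), ∃ R : V n ≃ₗᵢ[ℂ] V n, R p₀ = i.1.1 j := fun i j =>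
    exists_rot hp₀ (i.2.1 j)
  choose R hR using hrot
  have haut : ∀ (i : I) (j : Fin m), ∃ φ : V n → V n,
      Pool.Agent.TH310.Cor.Aut (i.1.2.1 j) φ := by
    intro i j
    obtain ⟨φ, h1, h2, h3, h4, h5, h6⟩ := i.2.2.1 j
    exact ⟨φ, h1, h2, h3, h4, h5, h6⟩
  choose φ hφ using haut
  have hcls : Cls p₀ ε m (fun (i : I) l z => i.1.2.2.1 l fun j => i.1.2.1 j z) := by
    refine ⟨fun i j z => (R i j).symm (i.1.2.1 j z), fun i j z => φ i j (R i j z),
      fun i l w => i.1.2.2.1 l fun j => R i j (w j), fun i j => (U_aut (R i j)).symm.comp (hφ i j),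
      fun i l => ?_, fun i l w hw => ?_, fun i l z hz => ?_⟩
    · refine (i.2.2.2.1 l).1.comp ?_ ?_
      · refine differentiableOn_pi.2 fun j => ?_
        exact ((R i j).toContinuousLinearEquiv.differentiable.comp
          (differentiable_apply j)).differentiableOn
      · intro w hw j
        have h1 := hw j
        change (1 - ε) * ‖w j‖ ^ 2 + ε * ‖(inner ℂ p₀ (w j) : ℂ)‖ ^ 2 < 1 at h1
        change (1 - ε) * ‖R i j (w j)‖ ^ 2 + ε * ‖(inner ℂ (i.1.1 j) (R i j (w j)) : ℂ)‖ ^ 2 < 1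
        rwa [← hR i j, (R i j).inner_map_map, (R i j).norm_map]
    · refine (i.2.2.2.1 l).2 _ fun j => ?_
      have h1 := hw j
      change (1 - ε) * ‖w j‖ ^ 2 + ε * ‖(inner ℂ p₀ (w j) : ℂ)‖ ^ 2 < 1 at h1
      change (1 - ε) * ‖R i j (w j)‖ ^ 2 + ε * ‖(inner ℂ (i.1.1 j) (R i j (w j)) : ℂ)‖ ^ 2 < 1
      rwa [← hR i j, (R i j).inner_map_map, (R i j).norm_map]
    · simp only [LinearIsometryEquiv.apply_symm_apply]
  obtain ⟨C, hC⟩ := global hp₀ hε hε1 ha hQ hcls (G := fun i : I => i.1.2.2.2)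
    (fun i k => i.2.2.2.2.1 k) (fun i => i.2.2.2.2.2)
  exact ⟨C, fun p hp ψ hψ H hH G hG hs => hC ⟨(p, ψ, H, G), hp, hψ, hH, hG, hs⟩⟩

/-- one arbitrary function -/
theorem one_of_loc {n N : ℕ} {δ C : ℝ} (hδ : 0 < δ) {f : Fin N → V n → ℂ}
    (h : Localises 1 (δ / (2 * (N + 1))) (2 / δ) C f) : CoronaWithOne δ C f := by
  intro G hG hlow
  have hN0 : (0 : ℝ) ≤ N := Nat.cast_nonneg N
  have hne : ∀ z ∈ {z | z ∈ ball (0 : V n) 1 ∧ ∀ l, ‖f l z‖ < δ / (2 * (N + 1))},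
      δ / 2 ≤ ‖G z‖ := by
    rintro z ⟨hz, hzl⟩
    have h1 := hlow z hz
    have h2 : ∑ l, ‖f l z‖ ≤ ∑ _l : Fin N, δ / (2 * (N + 1)) :=
      Finset.sum_le_sum fun l _ => (hzl l).le
    rw [Finset.sum_const, Finset.card_univ, Fintype.card_fin, nsmul_eq_mul] at h2
    have h3 : (N : ℝ) * (δ / (2 * (N + 1))) ≤ δ / 2 := by
      rw [mul_div_assoc', div_le_div_iff₀ (by positivity) (by norm_num)]
      nlinarith
    linarith
  obtain ⟨g, h1, h2, h3⟩ := h (fun _ => G) (fun _ => hG) ⟨fun _ z => (G z)⁻¹,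
    fun _ => (hG.1.mono fun z hz => hz.1).inv fun z hz h0 => by
      have h4 := hne z hz
      rw [h0, norm_zero] at h4
      linarith,
    fun _ z hz => by
      rw [norm_inv, ← one_div, show (2 : ℝ) / δ = 1 / (δ / 2) by field_simp]
      exact one_div_le_one_div_of_le (by positivity) (hne z hz),
    fun z hz => by
      rw [Finset.sum_const, Finset.card_univ, Fintype.card_fin, one_smul]
      refine mul_inv_cancel₀ fun h0 => ?_
      have h4 := hne z hz
      rw [h0, norm_zero] at h4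
      linarith⟩
  refine ⟨fun o => g (Sum.map id (fun _ => 0) o), fun o => h1 _, fun o => h2 _, fun z hz => ?_⟩
  have h4 := h3 z hz
  rw [Fintype.sum_sum_type] at h4 ⊢
  simpa using h4

theorem result :
    -- (1) localisation for functions of several automorphisms
    (∀ (n m N M : ℕ) (ε a Q : ℝ), 1 ≤ n → 0 < ε → ε ≤ 1 → 0 < a → 0 < Q → ∃ C : ℝ,
      ∀ p : Fin m → V n, (∀ j, ‖p j‖ = 1) → ∀ ψ : Fin m → V n → V n, (∀ j, IsAut (ψ j)) →
      ∀ H : Fin N → (Fin m → V n) → ℂ, (∀ l, HolBdd (H l) {w | ∀ j, w j ∈ ellipsoid (p j) ε}) →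
      Localises M a Q C fun l z => H l fun j => ψ j z) ∧
    -- (2) the corona theorem for such functions and one arbitrary function
    (∀ (n m N : ℕ) (ε δ : ℝ), 1 ≤ n → 0 < ε → ε ≤ 1 → 0 < δ → ∃ C : ℝ,
      ∀ p : Fin m → V n, (∀ j, ‖p j‖ = 1) → ∀ ψ : Fin m → V n → V n, (∀ j, IsAut (ψ j)) →
      ∀ H : Fin N → (Fin m → V n) → ℂ, (∀ l, HolBdd (H l) {w | ∀ j, w j ∈ ellipsoid (p j) ε}) →
      CoronaWithOne δ C fun l z => H l fun j => ψ j z) ∧
    -- (3) the case of bounded functions on the polydisc of `m` coordinates of automorphisms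
    (∀ (n m N : ℕ) (δ : ℝ), 1 ≤ n → 0 < δ → ∃ C : ℝ,
      ∀ p : Fin m → V n, (∀ j, ‖p j‖ = 1) → ∀ ψ : Fin m → V n → V n, (∀ j, IsAut (ψ j)) →
      ∀ H : Fin N → (Fin m → ℂ) → ℂ, (∀ l, HolBdd (H l) {w | ∀ j, ‖w j‖ < 1}) →
      CoronaWithOne δ C fun l z => H l fun j => inner ℂ (p j) (ψ j z)) := by
  have h2 : ∀ (n m N : ℕ) (ε δ : ℝ), 1 ≤ n → 0 < ε → ε ≤ 1 → 0 < δ → ∃ C : ℝ,
      ∀ p : Fin m → V n, (∀ j, ‖p j‖ = 1) → ∀ ψ : Fin m → V n → V n, (∀ j, IsAut (ψ j)) →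
      ∀ H : Fin N → (Fin m → V n) → ℂ, (∀ l, HolBdd (H l) {w | ∀ j, w j ∈ ellipsoid (p j) ε}) →
      CoronaWithOne δ C fun l z => H l fun j => ψ j z := by
    intro n m N ε δ hn hε hε1 hδ
    obtain ⟨C, hC⟩ := aut_loc n m N 1 ε (δ / (2 * (N + 1))) (2 / δ) hn hε hε1 (by positivity)
      (by positivity)
    exact ⟨C, fun p hp ψ hψ H hH => one_of_loc hδ (hC p hp ψ hψ H hH)⟩
  refine ⟨aut_loc, h2, fun n m N δ hn hδ => ?_⟩
  obtain ⟨C, hC⟩ := h2 n m N 1 δ hn one_pos le_rfl hδ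
  refine ⟨C, fun p hp ψ hψ H hH =>
    hC p hp ψ hψ (fun l w => H l fun j => inner ℂ (p j) (w j)) fun l => ?_⟩
  have h3 : ∀ w ∈ {w : Fin m → V n | ∀ j, w j ∈ ellipsoid (p j) 1},
      (fun j => inner ℂ (p j) (w j) : Fin m → ℂ) ∈ {w : Fin m → ℂ | ∀ j, ‖w j‖ < 1} := by
    intro w hw j
    have h4 : (1 - 1) * ‖w j‖ ^ 2 + 1 * ‖(inner ℂ (p j) (w j) : ℂ)‖ ^ 2 < 1 := hw j
    rw [sub_self, zero_mul, zero_add, one_mul, sq_lt_one_iff₀ (norm_nonneg _)] at h4
    exact h4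
  refine ⟨(hH l).1.comp (differentiableOn_pi.2 fun j => ?_) h3, fun w hw => (hH l).2 _ (h3 w hw)⟩
  exact ((innerSL ℂ (p j)).differentiable.comp (differentiable_apply j)).differentiableOn

end Pool.Agent.Results.MP_ca0fc2_an.SeveralAutomorphismsH86
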